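import Pool.Agent.H7.MF.Stmts

set_option autoImplicit false

open Finset

namespace Pool.MF7

open Pool.Agent.H23.KT Pool.Agent.H46.KW Pool.KQ Pool.GT7 Pool.GU7 Pool.GV7

theorem nuf_exp (x t : ℝ) (n : ℕ) (hx : 0 ≤ x) (hxt : t ≤ (n : ℝ) * (1 - x)) :
    x ^ n ≤ Real.exp (-t) := by
  have h1 : x ≤ Real.exp (-(1 - x)) := by
    have := Real.add_one_le_exp (-(1 - x))
    linarith
  calc x ^ n ≤ (Real.exp (-(1 - x))) ^ n := pow_le_pow_left₀ hx h1 n
    _ = Real.exp ((n : ℝ) * (-(1 - x))) := by rw [Real.exp_nat_mul]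
    _ ≤ Real.exp (-t) := by
      apply Real.exp_le_exp.mpr
      linarith

theorem nuf_exp_num (t c : ℝ) (k : ℕ) (hk : 0 < k) (ht : 0 ≤ t) (hc : 0 < c)
    (h : 1 ≤ c * (1 + t / k + (t / k) ^ 2 / 2) ^ k) : Real.exp (-t) ≤ c := by
  have hk' : (0 : ℝ) < k := by exact_mod_cast hk
  have h1 : 1 + t / k + (t / k) ^ 2 / 2 ≤ Real.exp (t / k) :=
    Real.quadratic_le_exp_of_nonneg (div_nonneg ht hk'.le)
  have h2 : (1 + t / k + (t / k) ^ 2 / 2) ^ k ≤ (Real.exp (t / k)) ^ k :=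
    pow_le_pow_left₀ (by positivity) h1 k
  have h3 : (Real.exp (t / k)) ^ k = Real.exp t := by
    rw [← Real.exp_nat_mul]
    congr 1
    field_simp
  rw [h3] at h2
  rw [Real.exp_neg]
  have he := Real.exp_pos t
  rw [inv_le_comm₀ he hc]
  have h4 : 1 ≤ c * Real.exp t := le_trans h (mul_le_mul_of_nonneg_left h2 hc.le)
  rw [inv_le_iff_one_le_mul₀ hc]
  linarith [mul_comm c (Real.exp t)]

theorem nuf_a (w : ℕ) (hw : 2 ≤ w) :
    (1 - 49 / 50 / ((w : ℝ) + 2)) ^ (w + 1) ≤ 4305 / 10000 := by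
  rcases Nat.lt_or_ge w 15 with h | h
  · interval_cases w <;> norm_num
  · have h' : (15 : ℝ) ≤ w := by exact_mod_cast h
    have hd : (0 : ℝ) < (w : ℝ) + 2 := by linarith
    have h0 : (0 : ℝ) ≤ 1 - 49 / 50 / ((w : ℝ) + 2) := by
      have : 49 / 50 / ((w : ℝ) + 2) ≤ 1 := by
        rw [div_le_one hd]; linarith
      linarith
    refine le_trans (nuf_exp _ (9 / 10) (w + 1) h0 ?_) ?_
    · have : (1 : ℝ) - (1 - 49 / 50 / ((w : ℝ) + 2)) = 49 / 50 / ((w : ℝ) + 2) := by ring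
      rw [this]
      push_cast
      rw [mul_div_assoc', le_div_iff₀ hd]
      nlinarith
    · apply nuf_exp_num (9 / 10) (4305 / 10000) 2 (by norm_num) (by norm_num) (by norm_num)
      norm_num

theorem nuf_b (w : ℕ) (hw : 2 ≤ w) :
    ((20 * (w : ℝ) + 11) / (20 * w + 40)) ^ (w + 1) ≤ 2592 / 10000 := by
  rcases Nat.lt_or_ge w 15 with h | h
  · interval_cases w <;> norm_num
  · have h' : (15 : ℝ) ≤ w := by exact_mod_cast h
    have hd : (0 : ℝ) < 20 * (w : ℝ) + 40 := by linarith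
    refine le_trans (nuf_exp _ (1364 / 1000) (w + 1) (by positivity) ?_) ?_
    · have : (1 : ℝ) - (20 * (w : ℝ) + 11) / (20 * w + 40) = 29 / (20 * (w : ℝ) + 40) := by
        field_simp; ring
      rw [this]
      push_cast
      rw [mul_div_assoc', le_div_iff₀ hd]
      nlinarith
    · apply nuf_exp_num (1364 / 1000) (2592 / 10000) 8 (by norm_num) (by norm_num) (by norm_num)
      norm_num

theorem nuf_sum (w : ℕ) :
    ∑ k ∈ range (w + 1), ((20 * (w : ℝ) + 11) / (20 * w + 40)) ^ (k + 1) =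
        (20 * w + 11) / 29 * (1 - ((20 * (w : ℝ) + 11) / (20 * w + 40)) ^ (w + 1)) := by
  have hw0 : (0 : ℝ) ≤ w := Nat.cast_nonneg w
  have hd : (0 : ℝ) < 20 * (w : ℝ) + 40 := by linarith
  have hX1 : (20 * (w : ℝ) + 11) / (20 * w + 40) < 1 := by
    rw [div_lt_one hd]; linarith
  have hg := geom_sum_eq (ne_of_lt hX1) (w + 1)
  have hm : ∑ k ∈ range (w + 1), ((20 * (w : ℝ) + 11) / (20 * w + 40)) ^ (k + 1) =
      ((20 * (w : ℝ) + 11) / (20 * w + 40)) *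
        ∑ k ∈ range (w + 1), ((20 * (w : ℝ) + 11) / (20 * w + 40)) ^ k := by
    rw [mul_sum]
    exact sum_congr rfl fun k _ => by rw [pow_succ, mul_comm]
  rw [hm, hg]
  have e2 : (20 * (w : ℝ) + 11) / (20 * w + 40) - 1 = -(29 / (20 * w + 40)) := by
    field_simp; ring
  rw [e2]
  generalize ((20 * (w : ℝ) + 11) / (20 * w + 40)) ^ (w + 1) = Y
  field_simp
  ring

theorem nuf_thm (hNUE : NUEStmt) : NUFStmt := by
  intro p w r hP
  obtain ⟨h1, _, h3, _, _, h6⟩ := hNUE p w r hP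
  have hw2 := hP.w2
  have hpw : w + 2 ≤ p := le_trans hP.rw hP.rp
  have hw2' : (2 : ℝ) ≤ w := by exact_mod_cast hw2
  have hpw' : (w : ℝ) + 2 ≤ p := by exact_mod_cast hpw
  have hd : (0 : ℝ) < 20 * (w : ℝ) + 40 := by linarith
  refine ⟨(20 * w + 11) / (20 * w + 40), by positivity, ?_, ?_, ?_⟩
  · rw [div_lt_one hd]; linarith
  · rw [nuf_sum]
    have hth : thE p w r ≤ 1 - 49 / 50 / ((w : ℝ) + 2) := by
      unfold thE
      have : 49 / 50 / ((w : ℝ) + 2) = 49 / 50 * (1 / ((w : ℝ) + 2)) := by ring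
      rw [this]
      linarith
    have ha : thE p w r ^ (w + 1) ≤ 4305 / 10000 :=
      le_trans (pow_le_pow_left₀ h3.le hth _) (nuf_a w hw2)
    have hb := nuf_b w hw2
    have h4 : ((w : ℝ) + 1) * thE p w r ^ (w + 1) ≤ ((w : ℝ) + 1) * (4305 / 10000) :=
      mul_le_mul_of_nonneg_left ha (by positivity)
    have h5 : (20 * (w : ℝ) + 11) / 29 * (7408 / 10000) ≤
        (20 * w + 11) / 29 * (1 - ((20 * (w : ℝ) + 11) / (20 * w + 40)) ^ (w + 1)) :=
      mul_le_mul_of_nonneg_left (by linarith) (by positivity)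
    linarith
  · have hb := nuf_b w hw2
    have hp0 : (0 : ℝ) < (p : ℝ) + 2 := by linarith
    have hp3 : (0 : ℝ) < (p : ℝ) + 3 := by linarith
    have hg0 : 0 ≤ thE p w r + (1 + 1 / (7 * ((p : ℝ) + 3) ^ 2)) / ((p : ℝ) + 2) := by
      positivity
    have hsm : ((w : ℝ) + 1) * ((1 / (7 * ((p : ℝ) + 3) ^ 2)) / ((p : ℝ) + 2)) ≤ 3 / 1000 := by
      have e1 : ((w : ℝ) + 1) * ((1 / (7 * ((p : ℝ) + 3) ^ 2)) / ((p : ℝ) + 2)) =
          (((w : ℝ) + 1) / ((p : ℝ) + 2)) * (1 / (7 * ((p : ℝ) + 3) ^ 2)) := by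
        field_simp
      rw [e1]
      have e2 : ((w : ℝ) + 1) / ((p : ℝ) + 2) ≤ 1 := by
        rw [div_le_one hp0]; linarith
      have e3 : 1 / (7 * ((p : ℝ) + 3) ^ 2) ≤ 1 / 343 := by
        apply one_div_le_one_div_of_le (by norm_num)
        nlinarith
      have e4 : 0 ≤ 1 / (7 * ((p : ℝ) + 3) ^ 2) := by positivity
      calc (((w : ℝ) + 1) / ((p : ℝ) + 2)) * (1 / (7 * ((p : ℝ) + 3) ^ 2))
          ≤ 1 * (1 / (7 * ((p : ℝ) + 3) ^ 2)) := mul_le_mul_of_nonneg_right e2 e4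
        _ ≤ 3 / 1000 := by linarith
    have key : (thE p w r + (1 + 1 / (7 * ((p : ℝ) + 3) ^ 2)) / ((p : ℝ) + 2)) ^ (w + 1) ≤
        7408 / 10000 := by
      refine le_trans (nuf_exp _ (303 / 1000) (w + 1) hg0 ?_) ?_
      · have e5 : (1 : ℝ) - (thE p w r + (1 + 1 / (7 * ((p : ℝ) + 3) ^ 2)) / ((p : ℝ) + 2)) =
            (49 / 50 * sE p w r - 1 / ((p : ℝ) + 2)) -
              (1 / (7 * ((p : ℝ) + 3) ^ 2)) / ((p : ℝ) + 2) := by
          unfold thE
          rw [add_div]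
          ring
        rw [e5, mul_sub]
        push_cast
        linarith
      · apply nuf_exp_num (303 / 1000) (7408 / 10000) 2 (by norm_num) (by norm_num) (by norm_num)
        norm_num
    linarith

end Pool.MF7
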