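import Pool.Agent.H51.MF.Base

/-! # Module PP2: the inductive step for Proposition P -/

set_option linter.style.haveILetI false
set_option linter.unusedSectionVars false
set_option autoImplicit false

namespace Pool.Agent.H51.MF

open Module Pool.Agent.H51.T2

universe u v

theorem PP2_ex_ne {n : ℕ} (T : Set (Fin n → ℤ)) (h : 1 ≤ rk T) : ∃ w ∈ T, w ≠ 0 := by
  by_contra hcon
  push Not at hcon
  have h1 : Submodule.span ℚ ((fun (w : Fin n → ℤ) (i : Fin n) => (w i : ℚ)) '' T) = ⊥ := by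
    rw [Submodule.span_eq_bot]
    rintro x ⟨w, hw, rfl⟩
    funext i
    simp [hcon w hw]
  unfold rk at h
  rw [h1, finrank_bot] at h
  omega

variable (K : Type v) [Field K] (A : Type u) [Ring A] [Algebra K A]

theorem PP2_quotBot {K : Type v} [Field K] {A : Type u} [Ring A] [Algebra K A] (X : FM K A) :
    Nonempty (X.quot ⊥ ≃ₗ[A] X) :=
  ⟨Submodule.quotEquivOfEqBot ⊥ rfl⟩

theorem s_PP2 (hMAX : S_MAX K A) (hLT : S_LT K A) (hSM : S_SM K A) (hREAL : S_REAL K A)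
    (hNUM : S_NUM K A) (hLSUB : S_LSUB K A) (hLIN1 : S_LIN1) (hLIN2 : S_LIN2) (hLIN4 : S_LIN4)
    (hFINV : S_FINV K A) (hDIM : S_DIM K A) : S_PP2 K A := by
  intro hK hA hHR c f₀ Y hf₀ hY hrk hind
  -- the dimension functional
  obtain ⟨δ, hδ⟩ := hDIM hA c
  have hzero : ∀ (S : Submodule A (FM.zero : FM K A)), c.v ((FM.zero : FM K A).quot S) = 0 := by
    intro S
    haveI : Subsingleton ((FM.zero : FM K A).quot S) :=
      (Submodule.mkQ_surjective S).subsingleton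
    exact v_zero c _
  have hδF : ∀ w ∈ VV c f₀ Y FM.zero, 0 ≤ (-δ) ⬝ᵥ w := by
    rintro w (⟨S, -, rfl⟩ | ⟨S, -, rfl⟩)
    · rw [neg_dotProduct, dotProduct_neg, neg_neg, hδ]
      positivity
    · rw [hzero S, dotProduct_zero]
  have hδN : NZ (WV c f₀) (-δ) := by
    obtain ⟨w, ⟨X, hX, rfl⟩, hw⟩ := PP2_ex_ne (WV c f₀) (by omega)
    refine ⟨c.v X, ⟨X, hX, rfl⟩, ?_⟩
    intro h0
    rw [neg_dotProduct, hδ, neg_eq_zero] at h0
    have h1 : finrank K X = 0 := by exact_mod_cast h0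
    haveI : Subsingleton X := finrank_zero_iff.1 h1
    exact hw (v_zero c X)
  obtain ⟨θ, hθF, hθN, -, hθM⟩ := hMAX hK hA hHR c f₀ Y hf₀ hY (-δ) hδF hδN
  obtain ⟨g, hg⟩ := hREAL hK hHR c f₀ θ hf₀
  -- `Y` is torsion free
  have hYF : FbN c f₀ θ Y := by
    intro S hS
    have := hθF _ (Or.inl ⟨S, hS, rfl⟩)
    rw [dotProduct_neg] at this
    linarith
  have hYH : HH g.f Y := (hNUM c f₀ g θ Y hf₀ hg hY).2.2 hYF
  have hf₁ : Rigid (f₀.add g).f := rigid_addTC hf₀ hg.rig hg.comp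
  -- the smaller world
  have hθ0 : ∀ w ∈ WV c (f₀.add g), θ ⬝ᵥ w = 0 := by
    rintro w ⟨X, hX, rfl⟩
    obtain ⟨h1, h2, h3⟩ := inW_addTC.1 hX
    rw [← hg.cl X h1]
    exact inW_cl ⟨h2, h3⟩
  have hrk1 : rk (WV c (f₀.add g)) < rk (WV c f₀) := by
    refine hLIN1 _ _ _ θ ?_ hθN
    rintro w hw
    refine ⟨Or.inl ?_, hθ0 w hw⟩
    obtain ⟨X, hX, rfl⟩ := hw
    exact ⟨X, (inW_addTC.1 hX).1, rfl⟩
  obtain ⟨U, hU1, hU2⟩ := hLSUB (f₀.add g) Y
  have hUW : InW (f₀.add g) (Y.sub U) := by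
    obtain ⟨h1, h2⟩ := tt_addTC.1 hU1
    exact inW_addTC.2 ⟨inW_sub_of_tt hY h1, h2, hh_sub hYH U⟩
  -- submodules of `Y` on which `θ` vanishes
  have hsub : ∀ S : Submodule A Y, InW f₀ (Y.sub S) → θ ⬝ᵥ c.v (Y.sub S) = 0 →
      InW (f₀.add g) (Y.sub S) := by
    intro S hS h0
    have h1 : HH g.f (Y.sub S) := hh_sub hYH S
    have h2 : g.cl (Y.sub S) = 0 := by rw [hg.cl _ hS, h0]
    exact inW_addTC.2 ⟨hS, tt_of_hh h1 h2, h1⟩
  -- the second functional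
  have key : ∃ η : Fin c.n → ℤ, (∀ S : Submodule A Y, InW (f₀.add g) (Y.sub S) →
      η ⬝ᵥ c.v (Y.sub S) ≤ 0) ∧
      (∀ X, Bp f₀ Y X → ∀ T : Submodule A X, InW (f₀.add g) (X.quot T) →
        0 ≤ η ⬝ᵥ c.v (X.quot T)) ∧ Ind (WV c f₀) θ η := by
    by_cases hr : 1 ≤ rk (WV c (f₀.add g))
    · obtain ⟨η, hηN, hηF, hηB⟩ := hind (f₀.add g) (Y.sub U) hf₁ hUW hr hrk1
      refine ⟨η, ?_, ?_, ?_⟩
      · intro S hS
        have hle : S ≤ U := hU2 S hS.1
        have e := subLe Y S U hle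
        have := hηF (S.comap U.subtype) (inW_iso e.symm hS)
        rwa [v_iso c e] at this
      · intro X hX T hT
        have h1 : Bp (f₀.add g) (Y.sub U) (X.quot T) := by
          refine ⟨hT, fun φ => ?_⟩
          have h2 := hX.2 (U.subtype ∘ₗ φ ∘ₗ T.mkQ)
          apply LinearMap.ext
          intro x
          obtain ⟨y, rfl⟩ := Submodule.mkQ_surjective T x
          have h3 := LinearMap.congr_fun h2 y
          apply Subtype.ext
          simpa using h3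
        obtain ⟨e⟩ := PP2_quotBot (X.quot T)
        have h4 := hηB _ h1 ⊥ (inW_iso e.symm hT)
        rwa [v_iso c e] at h4
      · intro a b hab
        obtain ⟨w, hw, hw0⟩ := hηN
        have hw' : w ∈ WV c f₀ := by
          obtain ⟨X, hX, rfl⟩ := hw
          exact ⟨X, (inW_addTC.1 hX).1, rfl⟩
        have h1 := hab w hw'
        rw [add_dotProduct, smul_dotProduct, smul_dotProduct, hθ0 w hw] at h1
        have hb : b = 0 := by
          simpa [hw0] using h1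
        subst hb
        obtain ⟨w', hw1, hw2⟩ := hθN
        have h2 := hab w' hw1
        rw [add_dotProduct, smul_dotProduct, smul_dotProduct] at h2
        have ha : a = 0 := by
          simpa [hw2] using h2
        exact ⟨ha, rfl⟩
    · have hr0 : rk (WV c (f₀.add g)) = 0 := by omega
      obtain ⟨η, hη0, hηI⟩ := hLIN2 _ (WV c f₀) (WV c (f₀.add g)) θ hθN (by omega)
      refine ⟨η, ?_, ?_, hηI⟩
      · intro S hS
        exact le_of_eq (hη0 _ ⟨_, hS, rfl⟩)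
      · intro X _ T hT
        exact ge_of_eq (hη0 _ ⟨_, hT, rfl⟩)
  obtain ⟨η, hη1, hη2, hη3⟩ := key
  have hfin : (VV c f₀ Y FM.zero).Finite := by
    obtain ⟨h1, -⟩ := hFINV c Y
    obtain ⟨-, h2⟩ := hFINV c (FM.zero : FM K A)
    refine ((h1.image (fun w => -w)).union h2).subset ?_
    rintro w (⟨S, -, rfl⟩ | ⟨S, -, rfl⟩)
    · exact Or.inl ⟨_, ⟨S, rfl⟩, rfl⟩
    · exact Or.inr ⟨S, rfl⟩
  obtain ⟨M₁, hM₁⟩ := hLIN4 _ (VV c f₀ Y FM.zero) θ η hfin hθF (by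
    rintro w (⟨S, hS, rfl⟩ | ⟨S, -, rfl⟩) h0
    · rw [dotProduct_neg, neg_eq_zero] at h0
      have := hη1 S (hsub S hS h0)
      rw [dotProduct_neg]
      linarith
    · rw [hzero S, dotProduct_zero])
  obtain ⟨M₂, hM₂⟩ := hSM c f₀ g θ η hf₀ hg
  set m := max M₁ M₂ with hm
  have hF' : ∀ w ∈ VV c f₀ Y FM.zero, 0 ≤ ((m : ℤ) • θ + η) ⬝ᵥ w :=
    hM₁ m (le_max_left _ _)
  have hLe : Le c f₀ Y θ ((m : ℤ) • θ + η) := by
    intro X hX
    exact ⟨hM₂ m (le_max_right _ _) X hX.2.1 hX.1 (hη2 X hX.2), hX.2⟩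
  have hInd : Ind (WV c f₀) θ ((m : ℤ) • θ + η) := by
    intro a b hab
    have h1 := hη3 (a + b * m) b (by
      intro w hw
      have := hab w hw
      simp only [add_dotProduct, smul_dotProduct, smul_eq_mul] at this ⊢
      linarith)
    obtain ⟨h2, h3⟩ := h1
    subst h3
    refine ⟨?_, rfl⟩
    simpa using h2
  refine ⟨θ, hθN, hYF, ?_⟩
  refine hLT hK hHR c f₀ Y FM.zero ∅ hf₀ hY inW_of_subsingleton (Set.empty_subset _) θ
    ((m : ℤ) • θ + η) ⟨hθF, fun w hw => absurd hw (Set.notMem_empty w)⟩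
    ⟨hF', fun w hw => absurd hw (Set.notMem_empty w)⟩ hInd ?_ hLe
  intro ζ hζ hζN hζL
  exact hθM ζ hζ.1 hζN hζL

end Pool.Agent.H51.MF
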